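import Mathlib

set_option autoImplicit false

namespace Pool.Agent.Results.MP_8e2370_an.NonConvexImages

open Complex Filter Topology

/-- Signed area (twice) of the triangle `a b c`. -/
noncomputable def orient (a b c : ℂ) : ℝ :=
  (b.re - a.re) * (c.im - a.im) - (b.im - a.im) * (c.re - a.re)

lemma mem_interior_of_orient {K : Set ℂ} (hK : Convex ℝ K) {w1 w2 w3 w4 : ℂ}
    (h1 : w1 ∈ K) (h3 : w3 ∈ K) (h4 : w4 ∈ K)
    (ho : 0 < orient w1 w3 w4) (ho1 : 0 < orient w2 w3 w4) (ho3 : 0 < orient w1 w2 w4)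
    (ho4 : 0 < orient w1 w3 w2) : w2 ∈ interior K := by
  rw [mem_interior]
  refine ⟨{x | 0 < orient x w3 w4} ∩ {x | 0 < orient w1 x w4} ∩ {x | 0 < orient w1 w3 x}, ?_, ?_, ?_⟩
  · rintro x ⟨⟨hx1, hx3⟩, hx4⟩
    simp only [Set.mem_ofPred_eq] at hx1 hx3 hx4
    have hsum : orient x w3 w4 / orient w1 w3 w4 + orient w1 x w4 / orient w1 w3 w4
        + orient w1 w3 x / orient w1 w3 w4 = 1 := by
      rw [← add_div, ← add_div, div_eq_one_iff_eq ho.ne']
      unfold orient; ring
    have hx : x = (orient x w3 w4 / orient w1 w3 w4) • w1 + (orient w1 x w4 / orient w1 w3 w4) • w3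
        + (orient w1 w3 x / orient w1 w3 w4) • w4 := by
      have ho' := ho.ne'
      apply Complex.ext
      · simp only [Complex.add_re, Complex.real_smul, Complex.mul_re, Complex.ofReal_re,
          Complex.ofReal_im, zero_mul, sub_zero]
        field_simp
        unfold orient; ring
      · simp only [Complex.add_im, Complex.real_smul, Complex.mul_im, Complex.ofReal_re,
          Complex.ofReal_im, zero_mul, add_zero]
        field_simp
        unfold orient; ring
    have p1 : 0 < orient x w3 w4 / orient w1 w3 w4 := div_pos hx1 ho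
    have p3 : 0 < orient w1 x w4 / orient w1 w3 w4 := div_pos hx3 ho
    have p4 : 0 < orient w1 w3 x / orient w1 w3 w4 := div_pos hx4 ho
    rw [hx]
    have hc := hK.sum_mem (t := Finset.univ) (w := ![orient x w3 w4 / orient w1 w3 w4,
      orient w1 x w4 / orient w1 w3 w4, orient w1 w3 x / orient w1 w3 w4])
      (z := ![w1, w3, w4]) ?_ ?_ ?_
    · simpa [Fin.sum_univ_three] using hc
    · intro i _
      fin_cases i <;> simp <;> positivity
    · simpa [Fin.sum_univ_three] using hsum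
    · intro i _
      fin_cases i <;> simp [h1, h3, h4]
  · refine IsOpen.inter (IsOpen.inter ?_ ?_) ?_
    · refine isOpen_lt continuous_const ?_
      unfold orient; fun_prop
    · refine isOpen_lt continuous_const ?_
      unfold orient; fun_prop
    · refine isOpen_lt continuous_const ?_
      unfold orient; fun_prop
  · exact ⟨⟨ho1, ho3⟩, ho4⟩

/-- Point of the open upper half of the unit circle with parameter `t > 0`. -/
noncomputable def circ (t : ℝ) : ℂ := ⟨(t ^ 2 - 1) / (t ^ 2 + 1), 2 * t / (t ^ 2 + 1)⟩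

lemma circ_norm (t : ℝ) : ‖circ t‖ = 1 := by
  have h : (0 : ℝ) < t ^ 2 + 1 := by positivity
  have : normSq (circ t) = 1 := by
    rw [Complex.normSq_apply]
    simp only [circ]
    field_simp
    ring
  rw [← Complex.sq_norm] at this
  have h0 := norm_nonneg (circ t)
  nlinarith

lemma circ_im {t : ℝ} (ht : 0 < t) : 0 < (circ t).im := by
  simp only [circ]; positivity

lemma inv_one (t : ℝ) : (1 : ℂ) / (circ t - 1) = ⟨-1 / 2, -t / 2⟩ := by
  have h : (0 : ℝ) < t ^ 2 + 1 := by positivity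
  have hne : circ t - 1 ≠ 0 := by
    intro h0
    have := congrArg Complex.re h0
    simp only [circ, Complex.sub_re, Complex.one_re, Complex.zero_re] at this
    field_simp at this
    linarith
  rw [div_eq_iff hne]
  apply Complex.ext
  · simp only [circ, Complex.mul_re, Complex.sub_re, Complex.sub_im, Complex.one_re,
      Complex.one_im]
    field_simp
    ring
  · simp only [circ, Complex.mul_im, Complex.sub_re, Complex.sub_im, Complex.one_re,
      Complex.one_im]
    field_simp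
    ring

lemma inv_q {q t : ℝ} (ht : 0 < t) : (1 : ℂ) / (circ t - q) =
    ⟨((1 - q) * t ^ 2 - (1 + q)) / ((1 - q) ^ 2 * t ^ 2 + (1 + q) ^ 2),
      -2 * t / ((1 - q) ^ 2 * t ^ 2 + (1 + q) ^ 2)⟩ := by
  have h : (0 : ℝ) < t ^ 2 + 1 := by positivity
  have h2 : (0 : ℝ) < (1 - q) ^ 2 * t ^ 2 + (1 + q) ^ 2 := by
    by_cases hq : 1 + q = 0
    · have : 1 - q ≠ 0 := by intro h'; linarith
      positivity
    · positivity
  have hne : circ t - q ≠ 0 := by
    intro h0
    have := congrArg Complex.im h0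
    simp only [circ, Complex.sub_im, Complex.ofReal_im, Complex.zero_im, sub_zero] at this
    field_simp at this
    linarith
  rw [div_eq_iff hne]
  apply Complex.ext
  · simp only [circ, Complex.mul_re, Complex.sub_re, Complex.sub_im, Complex.one_re,
      Complex.ofReal_re, Complex.ofReal_im]
    field_simp
    ring
  · simp only [circ, Complex.mul_im, Complex.sub_re, Complex.sub_im,
      Complex.one_im, Complex.ofReal_re, Complex.ofReal_im]
    field_simp
    ring

/-- The image points for the limiting function. -/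
lemma limit_value {q D τ : ℝ} (hq : 1 < |q|) (hD : D = |1 + q| / |1 - q|) (hτ : 0 < τ) :
    (1 : ℂ) / (circ (D * τ) - 1) + (((1 + q) ^ 2 / 4 : ℝ) : ℂ) / (circ (D * τ) - q) =
    ⟨(-1 / 2 + (1 + q) ^ 2 / 4 / (1 - q)) +
      ((1 + q) ^ 2 / 4 * (2 / (q ^ 2 - 1))) * (1 / (1 + τ ^ 2)),
      (-D / 2) * (τ * (1 + 1 / (1 + τ ^ 2)))⟩ := by
  have hq1 : 1 - q ≠ 0 := by
    intro h
    have : q = 1 := by linarith
    rw [this] at hq; simp at hq
  have hq2 : 1 + q ≠ 0 := by
    intro h
    have : q = -1 := by linarith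
    rw [this] at hq; simp at hq
  have hq3 : q ^ 2 - 1 ≠ 0 := by
    have : q ^ 2 - 1 = -((1 - q) * (1 + q)) := by ring
    rw [this]
    exact neg_ne_zero.2 (mul_ne_zero hq1 hq2)
  have hDpos : 0 < D := by
    rw [hD]; positivity
  have hD2 : (1 - q) ^ 2 * D ^ 2 = (1 + q) ^ 2 := by
    rw [hD, div_pow, sq_abs, sq_abs]
    field_simp
  have hDτ : 0 < D * τ := by positivity
  have e1 : (((1 + q) ^ 2 / 4 : ℝ) : ℂ) / (circ (D * τ) - q) =
      (((1 + q) ^ 2 / 4 : ℝ) : ℂ) * ((1 : ℂ) / (circ (D * τ) - q)) := by ring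
  rw [e1, inv_one, inv_q hDτ]
  have e2 : (1 - q) ^ 2 * (D * τ) ^ 2 + (1 + q) ^ 2 = (1 + q) ^ 2 * (1 + τ ^ 2) := by
    rw [mul_pow, ← mul_assoc, hD2]; ring
  rw [e2]
  have e3 : (1 - q) * (D * τ) ^ 2 = (1 + q) ^ 2 * τ ^ 2 / (1 - q) := by
    rw [eq_div_iff hq1, ← hD2]; ring
  rw [e3]
  have h1 : (0 : ℝ) < 1 + τ ^ 2 := by positivity
  apply Complex.ext
  · simp only [Complex.add_re, Complex.mul_re, Complex.ofReal_re, Complex.ofReal_im]
    field_simp
    ring
  · simp only [Complex.add_im, Complex.mul_im, Complex.ofReal_re, Complex.ofReal_im]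
    field_simp
    ring

lemma orient_affine (P : ℂ) (A B a b c d e f : ℝ) :
    orient ⟨P.re + A * a, B * b⟩ ⟨P.re + A * c, B * d⟩ ⟨P.re + A * e, B * f⟩ =
      A * B * ((c - a) * (f - b) - (d - b) * (e - a)) := by
  unfold orient; ring

/-- **Theorem.** For every `k ≥ 3`, every choice of poles `p_1 < ... < p_k` and every pair of
consecutive poles `p_i, p_j` (`j = i + 1`) there are positive residues `α_l` such that the image of
the open upper half of the circle with diameter `[p_i, p_j]` under `R(z) = ∑ α_l / (z - p_l)` is not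
the boundary of any closed convex subset of `ℂ`. -/
theorem result (k : ℕ) (hk : 3 ≤ k) (p : Fin k → ℝ) (hp : StrictMono p) (i j : Fin k)
    (hij : (j : ℕ) = (i : ℕ) + 1) :
    ∃ α : Fin k → ℝ, (∀ l, 0 < α l) ∧
      ∀ K : Set ℂ, IsClosed K → Convex ℝ K →
        frontier K ≠ (fun z : ℂ => ∑ l, (α l : ℂ) / (z - (p l : ℂ))) ''
          {z : ℂ | ‖z - (((p i + p j) / 2 : ℝ) : ℂ)‖ = (p j - p i) / 2 ∧ 0 < z.im} := by
  classical
  have hlt : p i < p j := hp (by rw [Fin.lt_def]; omega)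
  obtain ⟨r, hr⟩ : ∃ r, r = (p j - p i) / 2 := ⟨_, rfl⟩
  obtain ⟨ρ, hρ⟩ : ∃ ρ, ρ = (p i + p j) / 2 := ⟨_, rfl⟩
  have hrpos : 0 < r := by rw [hr]; linarith
  -- another pole
  obtain ⟨m, hm⟩ : ∃ m : Fin k, p m < p i ∨ p j < p m := by
    by_cases h : 0 < (i : ℕ)
    · refine ⟨⟨0, by omega⟩, Or.inl (hp ?_)⟩
      rw [Fin.lt_def]; exact h
    · refine ⟨⟨2, by omega⟩, Or.inr (hp ?_)⟩
      rw [Fin.lt_def]; simp only; omega
  obtain ⟨q, hq⟩ : ∃ q, q = (p m - ρ) / r := ⟨_, rfl⟩
  have hpm : p m = ρ + r * q := by rw [hq]; field_simp; ring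
  have hpj : p j = ρ + r * 1 := by rw [hr, hρ]; ring
  have hq1 : 1 < |q| := by
    rw [lt_abs]
    rcases hm with h | h
    · right
      have : p i = ρ + r * (-1) := by rw [hr, hρ]; ring
      rw [hpm, this] at h
      have : r * q < r * (-1) := by linarith
      have := lt_of_mul_lt_mul_left this hrpos.le
      linarith
    · left
      rw [hpm, hpj] at h
      have : r * 1 < r * q := by linarith
      exact lt_of_mul_lt_mul_left this hrpos.le
  have hmj : m ≠ j := by
    rintro rfl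
    rcases hm with h | h
    · linarith
    · exact lt_irrefl _ h
  obtain ⟨D, hD⟩ : ∃ D, D = |1 + q| / |1 - q| := ⟨_, rfl⟩
  have hqa : 1 - q ≠ 0 := by
    intro h
    have : q = 1 := by linarith
    rw [this] at hq1; simp at hq1
  have hqb : 1 + q ≠ 0 := by
    intro h
    have : q = -1 := by linarith
    rw [this] at hq1; simp at hq1
  have hDpos : 0 < D := by rw [hD]; positivity
  -- the points on the half circle
  obtain ⟨ζ, hζ⟩ : ∃ ζ : ℝ → ℂ, ∀ τ, ζ τ = ρ + r * circ (D * τ) := ⟨_, fun τ => rfl⟩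
  have hζmem : ∀ τ, 0 < τ → ζ τ ∈ {z : ℂ | ‖z - (((p i + p j) / 2 : ℝ) : ℂ)‖ = (p j - p i) / 2 ∧
      0 < z.im} := by
    intro τ hτ
    refine ⟨?_, ?_⟩
    · rw [← hρ, ← hr, hζ, add_sub_cancel_left, norm_mul, circ_norm, mul_one,
        Complex.norm_real, Real.norm_of_nonneg hrpos.le]
    · rw [hζ]
      simp only [Complex.add_im, Complex.ofReal_im, Complex.mul_im, Complex.ofReal_re, zero_mul,
        add_zero, zero_add]
      exact mul_pos hrpos (circ_im (by positivity))
  -- limiting residues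
  obtain ⟨α₀, hα₀⟩ : ∃ α₀ : Fin k → ℝ, ∀ l, α₀ l =
      (if l = j then r else 0) + (if l = m then r * ((1 + q) ^ 2 / 4) else 0) := ⟨_, fun l => rfl⟩
  have hα₀nn : ∀ l, 0 ≤ α₀ l := by
    intro l
    rw [hα₀]
    have h1 : 0 ≤ (if l = j then r else 0) := by split_ifs <;> linarith
    have h2 : 0 ≤ (if l = m then r * ((1 + q) ^ 2 / 4) else 0) := by
      split_ifs
      · positivity
      · exact le_refl _
    linarith
  obtain ⟨R, hR⟩ : ∃ R : (Fin k → ℝ) → ℂ → ℂ, ∀ α z, R α z = ∑ l, (α l : ℂ) / (z - (p l : ℂ)) :=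
    ⟨_, fun α z => rfl⟩
  have hrc : (r : ℂ) ≠ 0 := by exact_mod_cast hrpos.ne'
  have hR₀ : ∀ τ, 0 < τ → R α₀ (ζ τ) =
      ⟨(-1 / 2 + (1 + q) ^ 2 / 4 / (1 - q)) +
      ((1 + q) ^ 2 / 4 * (2 / (q ^ 2 - 1))) * (1 / (1 + τ ^ 2)),
      (-D / 2) * (τ * (1 + 1 / (1 + τ ^ 2)))⟩ := by
    intro τ hτ
    rw [← limit_value hq1 hD hτ, hR]
    have : ∀ l, (α₀ l : ℂ) / (ζ τ - (p l : ℂ)) =
        (if l = j then (r : ℂ) / (ζ τ - (p j : ℂ)) else 0) +
        (if l = m then ((r * ((1 + q) ^ 2 / 4) : ℝ) : ℂ) / (ζ τ - (p m : ℂ)) else 0) := by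
      intro l
      rw [hα₀]
      by_cases h1 : l = j
      · subst h1
        rw [if_pos rfl, if_neg (Ne.symm hmj), if_pos rfl, if_neg (Ne.symm hmj)]
        simp
      · rw [if_neg h1, if_neg h1]
        by_cases h2 : l = m
        · subst h2
          rw [if_pos rfl, if_pos rfl]
          simp
        · rw [if_neg h2, if_neg h2]
          simp
    rw [Finset.sum_congr rfl (fun l _ => this l), Finset.sum_add_distrib, Finset.sum_ite_eq',
      Finset.sum_ite_eq', if_pos (Finset.mem_univ _), if_pos (Finset.mem_univ _), hζ, hpm, hpj]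
    have e1 : ((ρ : ℂ) + r * circ (D * τ) - ((ρ + r * 1 : ℝ) : ℂ)) = r * (circ (D * τ) - 1) := by
      push_cast; ring
    have e2 : ((ρ : ℂ) + r * circ (D * τ) - ((ρ + r * q : ℝ) : ℂ)) = r * (circ (D * τ) - q) := by
      push_cast; ring
    rw [e1, e2]
    congr 1
    · rw [div_mul_eq_div_div, div_self hrc]
    · rw [Complex.ofReal_mul, mul_div_mul_left _ _ hrc]
  have hRcont : ∀ z, Continuous (fun ε : ℝ => R (fun l => α₀ l + ε) z) := by
    intro z
    simp only [hR]
    refine continuous_finsetSum _ (fun l _ => ?_)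
    refine Continuous.div_const ?_ _
    exact Complex.continuous_ofReal.comp (by fun_prop)
  have hA : 0 < (1 + q) ^ 2 / 4 * (2 / (q ^ 2 - 1)) := by
    have : 0 < q ^ 2 - 1 := by
      have := sq_lt_sq' (by linarith [abs_nonneg q]) hq1
      rw [sq_abs] at this
      linarith
    positivity
  have hB : (-D / 2) < 0 := by linarith
  -- orientations
  have key : ∀ a b c : ℝ, 0 < a → 0 < b → 0 < c →
      (1 / (1 + b ^ 2) - 1 / (1 + a ^ 2)) * (c * (1 + 1 / (1 + c ^ 2)) - a * (1 + 1 / (1 + a ^ 2))) -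
      (b * (1 + 1 / (1 + b ^ 2)) - a * (1 + 1 / (1 + a ^ 2))) * (1 / (1 + c ^ 2) - 1 / (1 + a ^ 2))
        < 0 →
      ∀ᶠ ε in 𝓝[>] (0 : ℝ), 0 < orient (R (fun l => α₀ l + ε) (ζ a)) (R (fun l => α₀ l + ε) (ζ b))
        (R (fun l => α₀ l + ε) (ζ c)) := by
    intro a b c ha hb hc habc
    have hcont : Continuous (fun ε : ℝ => orient (R (fun l => α₀ l + ε) (ζ a))
        (R (fun l => α₀ l + ε) (ζ b)) (R (fun l => α₀ l + ε) (ζ c))) := by
      have h1 := hRcont (ζ a)
      have h2 := hRcont (ζ b)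
      have h3 := hRcont (ζ c)
      have hg : Continuous (fun x : ℂ × ℂ × ℂ => orient x.1 x.2.1 x.2.2) := by
        unfold orient; fun_prop
      exact hg.comp (h1.prodMk (h2.prodMk h3))
    have h0 : 0 < orient (R (fun l => α₀ l + 0) (ζ a)) (R (fun l => α₀ l + 0) (ζ b))
        (R (fun l => α₀ l + 0) (ζ c)) := by
      have e0 : (fun l => α₀ l + 0) = α₀ := by funext l; ring
      rw [e0, hR₀ a ha, hR₀ b hb, hR₀ c hc]
      have := orient_affine ⟨-1 / 2 + (1 + q) ^ 2 / 4 / (1 - q), 0⟩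
        ((1 + q) ^ 2 / 4 * (2 / (q ^ 2 - 1))) (-D / 2) (1 / (1 + a ^ 2)) (a * (1 + 1 / (1 + a ^ 2)))
        (1 / (1 + b ^ 2)) (b * (1 + 1 / (1 + b ^ 2))) (1 / (1 + c ^ 2)) (c * (1 + 1 / (1 + c ^ 2)))
      simp only at this
      rw [this]
      exact mul_pos_of_neg_of_neg (mul_neg_of_pos_of_neg hA hB) habc
    have := hcont.tendsto 0
    exact (this.eventually (lt_mem_nhds h0)).filter_mono nhdsWithin_le_nhds
  have k1 := key (1 / 3) 1 2 (by norm_num) (by norm_num) (by norm_num) (by norm_num)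
  have k2 := key (2 / 3) 1 2 (by norm_num) (by norm_num) (by norm_num) (by norm_num)
  have k3 := key (1 / 3) (2 / 3) 2 (by norm_num) (by norm_num) (by norm_num) (by norm_num)
  have k4 := key (1 / 3) 1 (2 / 3) (by norm_num) (by norm_num) (by norm_num) (by norm_num)
  obtain ⟨ε, ⟨⟨⟨h1, h2⟩, h3⟩, h4⟩, hε⟩ :=
    ((((k1.and k2).and k3).and k4).and (self_mem_nhdsWithin (a := (0 : ℝ)) (s := Set.Ioi 0))).exists
  have hε' : 0 < ε := hε
  refine ⟨fun l => α₀ l + ε, fun l => by have := hα₀nn l; linarith, ?_⟩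
  intro K hKc hKconv hfr
  have himg : ∀ τ, 0 < τ → R (fun l => α₀ l + ε) (ζ τ) ∈ frontier K := by
    intro τ hτ
    rw [hfr]
    exact ⟨ζ τ, hζmem τ hτ, by rw [hR]⟩
  have hsub : frontier K ⊆ K := hKc.frontier_subset
  have hint : R (fun l => α₀ l + ε) (ζ (2 / 3)) ∈ interior K :=
    mem_interior_of_orient hKconv (hsub (himg (1 / 3) (by norm_num)))
      (hsub (himg 1 (by norm_num))) (hsub (himg 2 (by norm_num))) h1 h2 h3 h4
  have := himg (2 / 3) (by norm_num)
  exact this.2 hint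

end Pool.Agent.Results.MP_8e2370_an.NonConvexImages
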